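import Pool.Agent.H5.SC.Targets
import Pool.Agent.H30.PF.GM

set_option autoImplicit false

open Finset Real

namespace Pool.Agent.H5.SC

open Pool.Agent.H30.PF

theorem pf_DV (hRT : T_RT) (hBT : T_BT) : T_DV := by
  obtain ⟨C, hC, hBT⟩ := hBT
  refine ⟨C, hC, fun x d hx hd hdx => ?_⟩
  have hlx : 0 < log x := log_pos (by exact_mod_cast (by omega : 1 < x))
  have hR : 0 ≤ C * x * 2 ^ d.primeFactors.card / (d.totient * log x) := by positivity
  by_cases hodd : Odd d
  · obtain ⟨h1, h2⟩ := hRT d hodd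
    have h3 : ((Icc 3 x).filter (fun p => p.Prime ∧ d ∣ p ^ 2 - 2)) ⊆
        ((range d).filter (fun a => a ^ 2 % d = 2 % d)).biUnion
          (fun a => (Icc 1 x).filter (fun p => p.Prime ∧ p % d = a % d)) := by
      intro p hp
      rw [mem_filter, mem_Icc] at hp
      obtain ⟨⟨hp3, hpx⟩, hpp, hdp⟩ := hp
      rw [mem_biUnion]
      have h4 := sq_mod_of_dvd hp3 hdp
      refine ⟨p % d, ?_, ?_⟩
      · rw [mem_filter, mem_range]
        refine ⟨Nat.mod_lt _ hd, ?_⟩
        rw [← h4, Nat.pow_mod, Nat.mod_mod, ← Nat.pow_mod]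
      · rw [mem_filter, mem_Icc]
        exact ⟨⟨by omega, hpx⟩, hpp, (Nat.mod_mod _ _).symm⟩
    have h5 : (((Icc 3 x).filter (fun p => p.Prime ∧ d ∣ p ^ 2 - 2)).card : ℝ) ≤
        ∑ a ∈ (range d).filter (fun a => a ^ 2 % d = 2 % d),
          (((Icc 1 x).filter (fun p => p.Prime ∧ p % d = a % d)).card : ℝ) := by
      have h6 := (card_le_card h3).trans card_biUnion_le
      exact_mod_cast h6
    refine h5.trans ?_
    have h7 : ∑ a ∈ (range d).filter (fun a => a ^ 2 % d = 2 % d),
          (((Icc 1 x).filter (fun p => p.Prime ∧ p % d = a % d)).card : ℝ) ≤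
        ∑ a ∈ (range d).filter (fun a => a ^ 2 % d = 2 % d), C * x / (d.totient * log x) := by
      refine sum_le_sum fun a ha => ?_
      exact hBT x d a hx hd hdx (h2 a (mem_filter.1 ha).2).1
    refine h7.trans ?_
    rw [sum_const, nsmul_eq_mul]
    have h8 : ((((range d).filter (fun a => a ^ 2 % d = 2 % d)).card : ℕ) : ℝ) ≤
        2 ^ d.primeFactors.card := by exact_mod_cast h1
    have h9 : 0 ≤ C * x / (d.totient * log x) := by positivity
    calc _ ≤ 2 ^ d.primeFactors.card * (C * x / (d.totient * log x)) :=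
          mul_le_mul_of_nonneg_right h8 h9
      _ = _ := by ring
  · have h3 : ((Icc 3 x).filter (fun p => p.Prime ∧ d ∣ p ^ 2 - 2)) = ∅ := by
      rw [filter_eq_empty_iff]
      rintro p hp ⟨hpp, hdp⟩
      exact hodd (odd_of_dvd hpp (mem_Icc.1 hp).1 hdp)
    rw [h3, card_empty, Nat.cast_zero]
    exact hR

end Pool.Agent.H5.SC
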