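import Pool.Agent.H4.SCF.Main
import Pool.Agent.H51.BV.FB

/-!
# MP_04ff0f_nt, BoundedFactors version 2: one number with boundedly many prime factors, the others
with few large prime factors
-/

set_option autoImplicit false

open Finset Real Filter
open ArithmeticFunction (cardFactors)

namespace Pool.Agent.H5.SC

open Pool.Agent.H30.PF
open Pool.Agent.H4.SCF (NP NP_mono NP_two NP_of_sm card_idx expo expo2)

/-- an integer `≤ n ^ η` times at most `C LL / LLL` primes -/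
def NPL (η C : ℝ) (n a : ℕ) : Prop :=
  NP ((n : ℝ) ^ η) ((n : ℝ) ^ (log (log (log n)) / (C * log (log n))))
    (C * log (log n) / log (log (log n))) a

/-- few bad primes -/
theorem bad_c (hRO : T_RO) {η c : ℝ} {x₁ n X : ℕ} (hc : 0 < c) (hη : 0 < η)
    (hSB : ∀ x y : ℕ, x₁ ≤ x → (y : ℝ) ≤ (x : ℝ) ^ (c * log (log (log x)) / log (log x)) →
      (((Icc 3 x).filter (fun p => p.Prime ∧ (x : ℝ) ^ (η / 2) <
        (sm y (p ^ 2 - 2) : ℝ))).card : ℝ) ≤ x / (log x) ^ (5 : ℝ))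
    (hx₁ : x₁ ≤ X) (hn0 : (0 : ℝ) < n)
    (hln : 1 < log (n : ℝ)) (hL : 1 < log (log (n : ℝ))) (hnX : (n : ℝ) ≤ X)
    (hlX : log (n : ℝ) ≤ log X) (hlX2 : log (X : ℝ) ≤ 2 * log n)
    (hXn : (X : ℝ) ≤ n * n) (h2 : (2 : ℝ) ≤ (n : ℝ) ^ η)
    (f : ℕ → ℕ) (hf : ∀ k ∈ Icc 1 (n - 1), (f k).Prime) (hX : ∀ k ∈ Icc 1 (n - 1), f k ≤ X)
    (hinj : ∀ k ∈ Icc 1 (n - 1), ∀ l ∈ Icc 1 (n - 1), f k = f l → k = l) :
    (open Classical in (((Icc 1 (n - 1)).filter (fun k =>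
      ¬ NPL η (4 / c) n (f k ^ 2 - 2))).card : ℝ)) ≤ X / (log X) ^ (5 : ℝ) := by
  classical
  have hn1 : (1 : ℝ) < n := by
    by_contra hcon
    have h3 : log (n : ℝ) ≤ 0 := log_nonpos hn0.le (not_lt.1 hcon)
    linarith
  have hX1 : (1 : ℝ) < X := hn1.trans_le hnX
  have hll : 0 < log (log (log (n : ℝ))) := log_pos hL
  have hLX : log (log (n : ℝ)) ≤ log (log (X : ℝ)) := log_le_log (by linarith) hlX
  have hLX2 : log (log (X : ℝ)) ≤ 2 * log (log (n : ℝ)) := by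
    have h3 := loglog_le hln (by linarith) hlX2
    have h4 : log 2 ≤ 1 := by
      have := log_two_lt_d9
      linarith
    linarith
  have hlll : log (log (log (n : ℝ))) ≤ log (log (log (X : ℝ))) :=
    log_le_log (by linarith) hLX
  obtain ⟨θ, hθd⟩ : ∃ θ : ℝ, θ = c * log (log (log (X : ℝ))) / log (log (X : ℝ)) := ⟨_, rfl⟩
  have hθ : 0 < θ := by
    rw [hθd]
    have h3 : 0 < log (log (log (X : ℝ))) := hll.trans_le hlll
    have h4 : 0 < log (log (X : ℝ)) := by linarith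
    positivity
  obtain ⟨y, hy⟩ : ∃ y : ℕ, y = ⌊(X : ℝ) ^ θ⌋₊ := ⟨_, rfl⟩
  have hy1 : (y : ℝ) ≤ (X : ℝ) ^ θ := by
    rw [hy]
    exact Nat.floor_le (rpow_nonneg (by linarith) _)
  have hy2 : (X : ℝ) ^ θ < (y : ℝ) + 1 := by
    rw [hy]
    exact Nat.lt_floor_add_one _
  have h3 := hSB X y hx₁ (by rw [← hθd]; exact hy1)
  have e1 := expo (c := c) (L := log (log (n : ℝ))) (M := log (log (X : ℝ)))
    (l := log (log (log (n : ℝ)))) (m := log (log (log (X : ℝ)))) hc hL.le hLX2 (by linarith)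
    hll hlll
  have e2 := expo2 (c := c) (L := log (log (n : ℝ))) (M := log (log (X : ℝ)))
    (l := log (log (log (n : ℝ)))) (m := log (log (log (X : ℝ)))) hc hL.le hLX2 (by linarith)
    hll hlll
  rw [← hθd] at e1 e2
  have h4 := card_idx (X := X) (n := n) f
    (fun q => ¬ NPL η (4 / c) n (q ^ 2 - 2))
    (fun q => (X : ℝ) ^ (η / 2) < (sm y (q ^ 2 - 2) : ℝ)) hf hX hinj
    (fun h => h (NP_two h2 (by
      have : 0 < log (log (n : ℝ)) := by linarith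
      positivity)))
    (fun q hq hq3 hqx hP => by
      by_contra hcon
      push Not at hcon
      refine hP (NP_mono le_rfl ?_ e2 (NP_of_sm hRO hX1 hθ (by omega) hqx hy2
        (hcon.trans ?_)))
      · exact (rpow_le_rpow_of_exponent_le hn1.le e1).trans (rpow_le_rpow hn0.le hnX hθ.le)
      · have h5 : (X : ℝ) ^ (η / 2) ≤ ((n : ℝ) * n) ^ (η / 2) :=
          rpow_le_rpow (by linarith) hXn (by linarith)
        refine h5.trans (le_of_eq ?_)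
        rw [mul_rpow hn0.le hn0.le, ← rpow_add hn0]
        ring_nf)
  exact h4.trans h3

/-- the size of the exceptional sets -/
theorem size_c {A n X δ' : ℝ} (hn : 1 < log n) (hn0 : 0 < n) (hδ' : 0 < δ')
    (hX : X ≤ A * n * (log n) ^ (2 : ℕ)) (hlX : log n ≤ log X) (hlarge : A / δ' ≤ log n) :
    X / (log X) ^ (5 : ℝ) ≤ δ' * n / log n := by
  have hl : 0 < log n := by linarith
  have hlX0 : 0 < log X := by linarith
  have h0 : (log X) ^ (5 : ℝ) = (log X) ^ (5 : ℕ) := by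
    rw [← rpow_natCast]
    norm_num
  rw [h0, div_le_div_iff₀ (by positivity) hl]
  have h1 : (log n) ^ (5 : ℕ) ≤ (log X) ^ (5 : ℕ) := pow_le_pow_left₀ hl.le hlX 5
  have h2 : A ≤ δ' * log n := by
    rw [div_le_iff₀ hδ'] at hlarge
    linarith
  have h3 : A * (log n) ^ (3 : ℕ) ≤ δ' * (log n) ^ (5 : ℕ) := by
    calc A * (log n) ^ (3 : ℕ) ≤ δ' * log n * (log n) ^ (3 : ℕ) :=
          mul_le_mul_of_nonneg_right h2 (by positivity)
      _ = δ' * (log n) ^ (4 : ℕ) := by ring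
      _ ≤ δ' * (log n) ^ (5 : ℕ) :=
          mul_le_mul_of_nonneg_left (pow_le_pow_right₀ hn.le (by norm_num)) hδ'.le
  calc X * log n ≤ A * n * (log n) ^ (2 : ℕ) * log n := mul_le_mul_of_nonneg_right hX hl.le
    _ = n * (A * (log n) ^ (3 : ℕ)) := by ring
    _ ≤ n * (δ' * (log n) ^ (5 : ℕ)) := mul_le_mul_of_nonneg_left h3 hn0.le
    _ ≤ n * (δ' * (log X) ^ (5 : ℕ)) :=
        mul_le_mul_of_nonneg_left (mul_le_mul_of_nonneg_left h1 hδ'.le) hn0.le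
    _ = δ' * n * (log X) ^ (5 : ℕ) := by ring

open Classical in
/-- BoundedFactors, version 2 -/
def T_FB2 : Prop := ∃ (R : ℕ) (c : ℝ), 0 < c ∧ ∀ η : ℝ, 0 < η → ∃ C : ℝ, 0 < C ∧
  ∃ n₀ : ℕ, ∀ n : ℕ, n₀ ≤ n →
  c * n / Real.log n ≤ (((Icc 1 (n - 1)).filter (fun k =>
    (cardFactors (pr k ^ 2 - 2) ≤ R ∧
    (cardFactors (pr (n - k) ^ 2 - 2) : ℝ) ≤ 2.8 * Real.log (Real.log n) ∧
    (cardFactors (pr (pr (n - k)) ^ 2 - 2) : ℝ) ≤ 3.7 * Real.log (Real.log n)) ∧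
    NPL η C n (pr (n - k) ^ 2 - 2) ∧ NPL η C n (pr (pr (n - k)) ^ 2 - 2))).card : ℝ) ∧
  c * n / Real.log n ≤ (((Icc 1 (n - 1)).filter (fun m =>
    ((cardFactors (pr (n - m) ^ 2 - 2) : ℝ) ≤ 2.8 * Real.log (Real.log n) ∧
    cardFactors (pr m ^ 2 - 2) ≤ R ∧
    (cardFactors (pr (pr m) ^ 2 - 2) : ℝ) ≤ 3.7 * Real.log (Real.log n)) ∧
    NPL η C n (pr (n - m) ^ 2 - 2) ∧ NPL η C n (pr (pr m) ^ 2 - 2))).card : ℝ)

theorem pf_FB2 (hFB : Pool.Agent.H30.BV.T_FB) (hSB : T_SB) (hRO : T_RO) (hPN : T_PN) : T_FB2 := by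
  classical
  obtain ⟨R, c, n₁, hc, hFB⟩ := hFB
  obtain ⟨C, hC, hPN⟩ := hPN
  refine ⟨R, c / 2, by positivity, fun η hη => ?_⟩
  obtain ⟨b, x₂, hb, hSB⟩ := hSB (η / 2) 5 (by linarith) (by norm_num)
  refine ⟨4 / b, by positivity, ?_⟩
  have hev : ∀ᶠ n : ℕ in atTop, n₁ ≤ n ∧ x₂ ≤ n ∧ 2 ≤ n ∧
      1 < log (n : ℝ) ∧ 1 < log (log (n : ℝ)) ∧ C * (log (n : ℝ)) ^ 1 ≤ n ∧
      2 * C ^ 2 * (log (n : ℝ)) ^ 2 ≤ n ∧ 2 * C ^ 2 / (c / 4) ≤ log (n : ℝ) ∧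
      (2 : ℝ) ≤ (n : ℝ) ^ η := by
    filter_upwards [eventually_ge_atTop n₁, eventually_ge_atTop x₂, eventually_ge_atTop 2,
      tends_log.eventually_gt_atTop 1,
      tends_loglog.eventually_gt_atTop 1, ev_log_pow C 1, ev_log_pow (2 * C ^ 2) 2,
      tends_log.eventually_ge_atTop (2 * C ^ 2 / (c / 4)),
      ((tendsto_rpow_atTop hη).comp tendsto_natCast_atTop_atTop).eventually_ge_atTop 2]
      with n a1 a2 a5 a6 a7 a8 a9 a10 a11
    exact ⟨a1, a2, a5, a6, a7, a8, a9, a10, a11⟩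
  obtain ⟨n₀, hn₀⟩ := eventually_atTop.1 hev
  refine ⟨n₀, fun n hn => ?_⟩
  obtain ⟨h1, h2, hn2, hln, hLL, hCn, hCn2, hAn, h2n⟩ := hn₀ n hn
  obtain ⟨m1, m2⟩ := hFB n h1
  have hn0 : (0 : ℝ) < n := by exact_mod_cast (by omega : 0 < n)
  have hl0 : 0 < log (n : ℝ) := by linarith
  obtain ⟨x, hx⟩ : ∃ x, x = pr n := ⟨_, rfl⟩
  obtain ⟨X, hX⟩ : ∃ X, X = pr x := ⟨_, rfl⟩
  have hnx : n ≤ x := hx ▸ (Nat.le_succ n).trans (le_pr (by omega))
  have hxX : x ≤ X := hX ▸ (Nat.le_succ x).trans (le_pr (by omega))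
  have hnxR : (n : ℝ) ≤ x := by exact_mod_cast hnx
  have hxXR : (x : ℝ) ≤ X := by exact_mod_cast hxX
  have hlX : log (n : ℝ) ≤ log X := log_le_log hn0 (hnxR.trans hxXR)
  have hxle : (x : ℝ) ≤ C * n * log n := hx ▸ hPN n (by omega)
  rw [pow_one] at hCn
  have hx0' : (0 : ℝ) < x := hn0.trans_le hnxR
  have hX0 : (0 : ℝ) < X := hx0'.trans_le hxXR
  have hxn : (x : ℝ) ≤ n * n := sq_bound hxle hn0.le hCn
  have hlx2 : log (x : ℝ) ≤ 2 * log n := log_two_bound hn0 hx0' hxn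
  have hXle : (X : ℝ) ≤ 2 * C ^ 2 * n * (log n) ^ (2 : ℕ) := by
    have h3 : (X : ℝ) ≤ C * x * log x := hX ▸ hPN x (by omega)
    have h4 : C * x * log x ≤ C * (C * n * log n) * (2 * log n) := by
      refine mul_le_mul (mul_le_mul_of_nonneg_left hxle hC.le) hlx2 (log_natCast_nonneg x)
        (by positivity)
    have h5 : C * (C * n * log n) * (2 * log n) = 2 * C ^ 2 * n * (log n) ^ (2 : ℕ) := by ring
    exact (h3.trans h4).trans h5.le
  have hXn : (X : ℝ) ≤ n * n := sq_bound hXle hn0.le hCn2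
  have hlX2 : log (X : ℝ) ≤ 2 * log n := log_two_bound hn0 hX0 hXn
  have hk : ∀ k ∈ Icc 1 (n - 1), 1 ≤ k ∧ k ≤ n ∧ 1 ≤ n - k ∧ n - k ≤ n := by
    intro k hk
    rw [mem_Icc] at hk
    omega
  have h6 : ∀ j, 1 ≤ pr j := fun j => (pr_prime j).one_lt.le
  have hs := size_c (A := 2 * C ^ 2) (δ' := c / 4) hln hn0 (by positivity) hXle hlX
    hAn
  have e1 := (bad_c hRO hb hη hSB (h2.trans (hnx.trans hxX)) hn0 hln hLL (hnxR.trans hxXR) hlX hlX2
    hXn h2n (fun k => pr (n - k)) (fun k _ => pr_prime _)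
    (fun k h => (hx ▸ pr_mono (hk k h).2.2.2 : pr (n - k) ≤ x).trans hxX)
    (fun k h l h' hkl => by
      have h3 := pr_inj (hk k h).2.2.1 (hk l h').2.2.1 hkl
      have h4 := (hk k h).2.1
      have h5 := (hk l h').2.1
      omega)).trans hs
  have e2 := (bad_c hRO hb hη hSB (h2.trans (hnx.trans hxX)) hn0 hln hLL (hnxR.trans hxXR) hlX hlX2
    hXn h2n (fun k => pr (pr (n - k))) (fun k _ => pr_prime _)
    (fun k h => hX ▸ pr_mono (hx ▸ pr_mono (hk k h).2.2.2)) (fun k h l h' hkl => by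
      have h3 := pr_inj (hk k h).2.2.1 (hk l h').2.2.1 (pr_inj (h6 _) (h6 _) hkl)
      have h4 := (hk k h).2.1
      have h5 := (hk l h').2.1
      omega)).trans hs
  have e3 := (bad_c hRO hb hη hSB (h2.trans (hnx.trans hxX)) hn0 hln hLL (hnxR.trans hxXR) hlX hlX2
    hXn h2n (fun k => pr (pr k)) (fun k _ => pr_prime _)
    (fun k h => hX ▸ pr_mono (hx ▸ pr_mono (hk k h).2.1)) (fun k h l h' hkl =>
      pr_inj (hk k h).1 (hk l h').1 (pr_inj (h6 _) (h6 _) hkl))).trans hs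
  have e4 : c / 2 * n / log n = c * n / log n - c / 4 * n / log n - c / 4 * n / log n := by ring
  rw [e4]
  constructor
  · refine le_trans ?_ (Pool.Agent.H51.BV.card_sub (K := (Icc 1 (n - 1)).filter (fun k =>
      cardFactors (pr k ^ 2 - 2) ≤ R ∧
      (cardFactors (pr (n - k) ^ 2 - 2) : ℝ) ≤ 2.8 * Real.log (Real.log n) ∧
      (cardFactors (pr (pr (n - k)) ^ 2 - 2) : ℝ) ≤ 3.7 * Real.log (Real.log n)))
      (E1 := (Icc 1 (n - 1)).filter (fun k => ¬ NPL η (4 / b) n (pr (n - k) ^ 2 - 2)))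
      (E2 := (Icc 1 (n - 1)).filter (fun k => ¬ NPL η (4 / b) n (pr (pr (n - k)) ^ 2 - 2))) ?_)
    · linarith
    · intro k hk'
      rw [mem_filter] at hk'
      rw [mem_union, mem_union, mem_filter, mem_filter, mem_filter]
      by_cases q1 : NPL η (4 / b) n (pr (n - k) ^ 2 - 2)
      · by_cases q2 : NPL η (4 / b) n (pr (pr (n - k)) ^ 2 - 2)
        · exact Or.inl ⟨hk'.1, hk'.2, q1, q2⟩
        · exact Or.inr (Or.inr ⟨hk'.1, q2⟩)
      · exact Or.inr (Or.inl ⟨hk'.1, q1⟩)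
  · refine le_trans ?_ (Pool.Agent.H51.BV.card_sub (K := (Icc 1 (n - 1)).filter (fun m =>
      (cardFactors (pr (n - m) ^ 2 - 2) : ℝ) ≤ 2.8 * Real.log (Real.log n) ∧
      cardFactors (pr m ^ 2 - 2) ≤ R ∧
      (cardFactors (pr (pr m) ^ 2 - 2) : ℝ) ≤ 3.7 * Real.log (Real.log n)))
      (E1 := (Icc 1 (n - 1)).filter (fun k => ¬ NPL η (4 / b) n (pr (n - k) ^ 2 - 2)))
      (E2 := (Icc 1 (n - 1)).filter (fun k => ¬ NPL η (4 / b) n (pr (pr k) ^ 2 - 2))) ?_)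
    · linarith
    · intro k hk'
      rw [mem_filter] at hk'
      rw [mem_union, mem_union, mem_filter, mem_filter, mem_filter]
      by_cases q1 : NPL η (4 / b) n (pr (n - k) ^ 2 - 2)
      · by_cases q2 : NPL η (4 / b) n (pr (pr k) ^ 2 - 2)
        · exact Or.inl ⟨hk'.1, hk'.2, q1, q2⟩
        · exact Or.inr (Or.inr ⟨hk'.1, q2⟩)
      · exact Or.inr (Or.inl ⟨hk'.1, q1⟩)

end Pool.Agent.H5.SC
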