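import Pool.Agent.H5.SC.Targets

set_option autoImplicit false

open Finset Real

namespace Pool.Agent.H5.SC

/-- greedy product of a list of small numbers -/
theorem greedy_list {y D : ℕ} (hD : 1 ≤ D) (l : List ℕ) (hl : ∀ q ∈ l, q ≤ y) (h : D < l.prod) :
    ∃ l' : List ℕ, l'.Sublist l ∧ l'.prod ≤ D ∧ D < l'.prod * y := by
  induction l with
  | nil =>
    simp only [List.prod_nil] at h
    omega
  | cons a l ih =>
    have ha : a ≤ y := hl a List.mem_cons_self
    rcases Nat.lt_or_ge D l.prod with h1 | h1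
    · obtain ⟨l', h2, h3, h4⟩ := ih (fun q hq => hl q (List.mem_cons_of_mem a hq)) h1
      exact ⟨l', h2.trans (List.sublist_cons_self a l), h3, h4⟩
    · refine ⟨l, List.sublist_cons_self a l, h1, ?_⟩
      rw [List.prod_cons] at h
      calc D < a * l.prod := h
        _ = l.prod * a := mul_comm _ _
        _ ≤ l.prod * y := Nat.mul_le_mul_left _ ha

theorem pf_GR : T_GR := by
  intro y D N hN hD h
  have hs0 : sm y N ≠ 0 := by omega
  have hsN : sm y N ∣ N := by
    have h1 : sm y N * rg y N = N := by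
      unfold sm rg
      rw [Finset.prod_filter_mul_prod_filter_not]
      exact Nat.prod_factorization_pow_eq_self hN
    exact Dvd.intro _ h1
  have hsq : ∀ q ∈ (sm y N).primeFactorsList, q ≤ y := by
    intro q hq
    have hqp := Nat.prime_of_mem_primeFactorsList hq
    have hqd := Nat.dvd_of_mem_primeFactorsList hq
    unfold sm at hqd
    obtain ⟨r, hr, hr2⟩ := (hqp.prime.dvd_finsetProd_iff _).1 hqd
    rw [mem_filter] at hr
    have h1 := hqp.dvd_of_dvd_pow hr2
    have h2 := (Nat.prime_dvd_prime_iff_eq hqp (Nat.prime_of_mem_primeFactors hr.1)).1 h1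
    rw [h2]
    exact hr.2
  have h1 : D < (sm y N).primeFactorsList.prod := by rwa [Nat.prod_primeFactorsList hs0]
  obtain ⟨l', h2, h3, h4⟩ := greedy_list hD _ hsq h1
  have h5 : l'.prod ∣ sm y N := by
    have h6 := h2.prod_dvd_prod
    rwa [Nat.prod_primeFactorsList hs0] at h6
  refine ⟨l'.prod, h5.trans hsN, ?_, h3, h4⟩
  intro q hq
  have hqp := Nat.prime_of_mem_primeFactors hq
  have hqd := Nat.dvd_of_mem_primeFactors hq
  exact hsq q ((Nat.mem_primeFactorsList hs0).2 ⟨hqp, hqd.trans h5⟩)

end Pool.Agent.H5.SC
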