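import Pool.Agent.H5.SC.Targets

set_option autoImplicit false

open Finset Real

namespace Pool.Agent.H5.SC

theorem rg_prime_gt {y N q : ℕ} (hq : q ∈ (rg y N).primeFactors) : y < q := by
  have hqp := Nat.prime_of_mem_primeFactors hq
  have hqd := Nat.dvd_of_mem_primeFactors hq
  unfold rg at hqd
  obtain ⟨r, hr, hr2⟩ := (hqp.prime.dvd_finsetProd_iff _).1 hqd
  rw [mem_filter] at hr
  have h1 := hqp.dvd_of_dvd_pow hr2
  have h2 := (Nat.prime_dvd_prime_iff_eq hqp (Nat.prime_of_mem_primeFactors hr.1)).1 h1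
  rw [h2]
  exact not_le.1 hr.2

theorem pow_len_le {y M : ℕ} (hM : M ≠ 0) (h : ∀ q ∈ M.primeFactors, y < q) :
    (y + 1) ^ M.primeFactorsList.length ≤ M := by
  have h1 : ∀ l : List ℕ, (∀ q ∈ l, y + 1 ≤ q) → (y + 1) ^ l.length ≤ l.prod := by
    intro l
    induction l with
    | nil => simp
    | cons a l ih =>
      intro hl
      rw [List.length_cons, List.prod_cons, pow_succ, mul_comm]
      exact Nat.mul_le_mul (hl a List.mem_cons_self)
        (ih fun q hq => hl q (List.mem_cons_of_mem a hq))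
  have h2 := h1 M.primeFactorsList fun q hq => h q (List.mem_toFinset.2 hq)
  rwa [Nat.prod_primeFactorsList hM] at h2

theorem pf_RO : T_RO := by
  intro y N hN
  have h1 : sm y N * rg y N = N := by
    unfold sm rg
    rw [Finset.prod_filter_mul_prod_filter_not]
    exact Nat.prod_factorization_pow_eq_self hN
  have h2 : rg y N ≠ 0 := by
    intro h
    rw [h, mul_zero] at h1
    exact hN h1.symm
  refine ⟨h1, fun q hq => rg_prime_gt hq, ?_⟩
  refine (pow_len_le h2 fun q hq => rg_prime_gt hq).trans ?_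
  exact Nat.le_of_dvd (Nat.pos_of_ne_zero hN) (Dvd.intro_left _ h1)

end Pool.Agent.H5.SC
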