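import Pool.Agent.H5.SC.Targets
import Pool.Agent.H12.PF.MR

set_option autoImplicit false

open Finset Real

namespace Pool.Agent.H5.SC

open Pool.Agent.H30.PF

theorem sm_pos (y N : ℕ) : 0 < sm y N := by
  unfold sm
  refine Finset.prod_pos ?_
  intro q hq
  exact pow_pos (Nat.prime_of_mem_primeFactors (mem_filter.1 hq).1).pos _

/-- the logarithm of the smooth part -/
theorem log_sm (y N : ℕ) : log (sm y N : ℝ) =
    ∑ q ∈ N.primeFactors.filter (fun q => q ≤ y), (N.factorization q : ℝ) * log q := by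
  unfold sm
  rw [Nat.cast_prod, log_prod]
  · refine sum_congr rfl fun q _ => ?_
    rw [Nat.cast_pow, log_pow]
  · intro q hq
    have := (Nat.prime_of_mem_primeFactors (mem_filter.1 hq).1).pos
    positivity

theorem fac_le {N q x : ℕ} (hq : q.Prime) (h : (q ^ N.factorization q) ^ 4 ≤ x) :
    N.factorization q ≤ x := by
  have h1 : N.factorization q < q ^ N.factorization q := Nat.lt_pow_self hq.one_lt
  have h2 : q ^ N.factorization q ≤ (q ^ N.factorization q) ^ 4 :=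
    Nat.le_self_pow (by norm_num) _
  omega

/-- the sum of `log q` over the prime powers which divide `N` -/
theorem log_sm_le {y N x : ℕ} (hN : N ≠ 0)
    (h : ∀ q : ℕ, q.Prime → q ≤ y → (q ^ N.factorization q) ^ 4 ≤ x) :
    log (sm y N : ℝ) ≤ ∑ q ∈ (Icc 1 y).filter Nat.Prime, ∑ j ∈ Icc 1 x,
      if q ^ j ∣ N ∧ (q ^ j) ^ 4 ≤ x then log (q : ℝ) else 0 := by
  rw [log_sm]
  have h1 : ∀ q ∈ N.primeFactors.filter (fun q => q ≤ y),
      (N.factorization q : ℝ) * log q ≤ ∑ j ∈ Icc 1 x,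
        if q ^ j ∣ N ∧ (q ^ j) ^ 4 ≤ x then log (q : ℝ) else 0 := by
    intro q hq
    rw [mem_filter] at hq
    have hqp := Nat.prime_of_mem_primeFactors hq.1
    have h2 := h q hqp hq.2
    have h3 := fac_le hqp h2
    have hlq : 0 ≤ log (q : ℝ) := log_natCast_nonneg q
    have h4 : ∑ j ∈ Icc 1 (N.factorization q),
        (if q ^ j ∣ N ∧ (q ^ j) ^ 4 ≤ x then log (q : ℝ) else 0) =
          (N.factorization q : ℝ) * log q := by
      have h5 : ∀ j ∈ Icc 1 (N.factorization q),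
          (if q ^ j ∣ N ∧ (q ^ j) ^ 4 ≤ x then log (q : ℝ) else 0) = log q := by
        intro j hj
        rw [mem_Icc] at hj
        rw [if_pos]
        refine ⟨(hqp.pow_dvd_iff_le_factorization hN).2 hj.2, ?_⟩
        exact le_trans (Nat.pow_le_pow_left (Nat.pow_le_pow_right hqp.pos hj.2) 4) h2
      rw [sum_congr rfl h5, sum_const, nsmul_eq_mul, Nat.card_Icc, Nat.add_sub_cancel]
    rw [← h4]
    refine sum_le_sum_of_subset_of_nonneg (Icc_subset_Icc_right h3) fun j _ _ => ?_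
    split_ifs
    · exact hlq
    · exact le_rfl
  refine (sum_le_sum h1).trans ?_
  refine sum_le_sum_of_subset_of_nonneg ?_ fun q _ _ => sum_nonneg fun j _ => ?_
  · intro q hq
    rw [mem_filter] at hq ⊢
    have hqp := Nat.prime_of_mem_primeFactors hq.1
    exact ⟨mem_Icc.2 ⟨hqp.one_le, hq.2⟩, hqp⟩
  · split_ifs
    · exact log_natCast_nonneg q
    · exact le_rfl

theorem totient_ge {q j : ℕ} (hq : q.Prime) (hj : 1 ≤ j) :
    ((q : ℝ) ^ j) / 2 ≤ ((q ^ j).totient : ℝ) := by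
  rw [Nat.totient_prime_pow hq hj]
  have h1 : (2 : ℝ) ≤ q := by exact_mod_cast hq.two_le
  have h2 : (((q ^ (j - 1) * (q - 1) : ℕ)) : ℝ) = (q : ℝ) ^ (j - 1) * ((q : ℝ) - 1) := by
    rw [Nat.cast_mul, Nat.cast_pow, Nat.cast_sub hq.one_le, Nat.cast_one]
  rw [h2]
  have h3 : (q : ℝ) ^ j = (q : ℝ) ^ (j - 1) * q := by
    rw [← pow_succ]
    congr 1
    omega
  rw [h3]
  have h4 : (0 : ℝ) ≤ (q : ℝ) ^ (j - 1) := by positivity
  nlinarith

/-- the count for a prime power -/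
theorem count_pow {C : ℝ} (hC : 0 < C) (hDV : ∀ x d : ℕ, 2 ≤ x → 1 ≤ d → d ^ 4 ≤ x →
    (((Icc 3 x).filter (fun p => p.Prime ∧ d ∣ p ^ 2 - 2)).card : ℝ) ≤
      C * x * 2 ^ d.primeFactors.card / (d.totient * log x)) {x q j : ℕ} (hx : 2 ≤ x)
    (hq : q.Prime) (hj : 1 ≤ j) (h : (q ^ j) ^ 4 ≤ x) :
    (((Icc 3 x).filter (fun p => p.Prime ∧ q ^ j ∣ p ^ 2 - 2)).card : ℝ) ≤
      4 * C * x / ((q : ℝ) ^ j * log x) := by
  have h1 := hDV x (q ^ j) hx (Nat.one_le_iff_ne_zero.2 (pow_ne_zero _ hq.ne_zero)) h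
  have h2 : (q ^ j).primeFactors.card = 1 := by
    rw [Nat.primeFactors_prime_pow (by omega) hq, card_singleton]
  rw [h2, pow_one] at h1
  refine h1.trans ?_
  have hlx : 0 < log x := log_pos (by exact_mod_cast (by omega : 1 < x))
  have h3 := totient_ge hq hj
  have hq0 : (0 : ℝ) < (q : ℝ) ^ j := by
    have := hq.pos
    positivity
  have h4 : 0 < ((q ^ j).totient : ℝ) := by linarith
  rw [div_le_div_iff₀ (by positivity) (by positivity)]
  have h5 : C * x * 2 * ((q : ℝ) ^ j * log x) = (4 * C * x * log x) * ((q : ℝ) ^ j / 2) := by ring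
  have h6 : 4 * C * x * (((q ^ j).totient : ℝ) * log x) =
      (4 * C * x * log x) * ((q ^ j).totient : ℝ) := by ring
  rw [h5, h6]
  exact mul_le_mul_of_nonneg_left h3 (by positivity)

/-- geometric sum -/
theorem geo_sum {q : ℕ} (hq : q.Prime) (J : ℕ) :
    ∑ j ∈ Icc 1 J, 1 / (q : ℝ) ^ j ≤ 2 / q := by
  have hq2 : (2 : ℝ) ≤ q := by exact_mod_cast hq.two_le
  have hq0 : (0 : ℝ) < q := by linarith
  have h1 : ∀ J : ℕ, ∑ j ∈ Icc 1 J, 1 / (q : ℝ) ^ j ≤ 2 / q * (1 - 1 / (q : ℝ) ^ J) := by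
    intro J
    induction J with
    | zero => simp
    | succ J ih =>
      rw [sum_Icc_succ_top (by omega)]
      obtain ⟨a, ha⟩ : ∃ a, a = 1 / (q : ℝ) ^ J := ⟨_, rfl⟩
      obtain ⟨t, ht⟩ : ∃ t, t = 1 / (q : ℝ) := ⟨_, rfl⟩
      have ha0 : 0 ≤ a := by rw [ha]; positivity
      have ht0 : 0 ≤ t := by rw [ht]; positivity
      have h3 : 1 / (q : ℝ) ^ (J + 1) = a * t := by
        rw [ha, ht, pow_succ]
        field_simp
      have h4 : t ≤ 1 / 2 := by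
        rw [ht]
        exact one_div_le_one_div_of_le (by norm_num) hq2
      have h5 : 2 / (q : ℝ) = 2 * t := by rw [ht]; ring
      rw [h5, ← ha] at ih
      rw [h5, h3]
      have h6 : a * t * t ≤ a * t * (1 / 2) := mul_le_mul_of_nonneg_left h4 (by positivity)
      nlinarith
  refine (h1 J).trans ?_
  have h2 : 0 ≤ 1 / (q : ℝ) ^ J := by positivity
  have h3 : 0 ≤ 2 / (q : ℝ) := by positivity
  nlinarith

/-- the sum of `log q / q` -/
theorem sum_log_div (y : ℕ) :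
    ∑ q ∈ (Icc 1 y).filter Nat.Prime, log (q : ℝ) / q ≤ log y + 9 := by
  rcases Nat.lt_or_ge y 2 with hy | hy
  · have h1 : (Icc 1 y).filter Nat.Prime = ∅ := by
      rw [filter_eq_empty_iff]
      intro q hq hqp
      have := (mem_Icc.1 hq).2
      have := hqp.two_le
      omega
    rw [h1, sum_empty]
    have := log_natCast_nonneg y
    linarith
  · have h1 := Pool.Agent.H12.PF.A_le 2 y le_rfl hy
    have h2 : (Icc 1 y).filter Nat.Prime = insert 2 ((Ioc 2 y).filter Nat.Prime) := by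
      ext q
      simp only [mem_filter, mem_Icc, mem_insert, mem_Ioc]
      constructor
      · rintro ⟨⟨-, h3⟩, h4⟩
        rcases h4.two_le.eq_or_lt with h5 | h5
        · exact Or.inl h5.symm
        · exact Or.inr ⟨⟨h5, h3⟩, h4⟩
      · rintro (h3 | ⟨⟨h3, h4⟩, h5⟩)
        · rw [h3]
          exact ⟨⟨by norm_num, hy⟩, Nat.prime_two⟩
        · exact ⟨⟨by omega, h4⟩, h5⟩
    rw [h2, sum_insert (by simp)]
    have h3 : 0 ≤ log ((2 : ℕ) : ℝ) := log_natCast_nonneg 2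
    have h4 : log ((2 : ℕ) : ℝ) / ((2 : ℕ) : ℝ) ≤ log ((2 : ℕ) : ℝ) := by
      have : ((2 : ℕ) : ℝ) = 2 := by norm_num
      rw [this] at h3 ⊢
      linarith
    linarith

/-- swapping the sums -/
theorem first_moment {C : ℝ} (hC : 0 < C) (hDV : ∀ x d : ℕ, 2 ≤ x → 1 ≤ d → d ^ 4 ≤ x →
    (((Icc 3 x).filter (fun p => p.Prime ∧ d ∣ p ^ 2 - 2)).card : ℝ) ≤
      C * x * 2 ^ d.primeFactors.card / (d.totient * log x)) {x : ℕ} (hx : 2 ≤ x) (y : ℕ) :
    ∑ p ∈ (Icc 3 x).filter Nat.Prime, ∑ q ∈ (Icc 1 y).filter Nat.Prime, ∑ j ∈ Icc 1 x,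
      (if q ^ j ∣ p ^ 2 - 2 ∧ (q ^ j) ^ 4 ≤ x then log (q : ℝ) else 0) ≤
    8 * C * x / log x * (log y + 9) := by
  have hlx : 0 < log x := log_pos (by exact_mod_cast (by omega : 1 < x))
  rw [sum_comm]
  have h1 : ∀ q ∈ (Icc 1 y).filter Nat.Prime, ∑ p ∈ (Icc 3 x).filter Nat.Prime, ∑ j ∈ Icc 1 x,
      (if q ^ j ∣ p ^ 2 - 2 ∧ (q ^ j) ^ 4 ≤ x then log (q : ℝ) else 0) ≤
      8 * C * x / log x * (log (q : ℝ) / q) := by
    intro q hq
    have hqp := (mem_filter.1 hq).2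
    have hlq : 0 ≤ log (q : ℝ) := log_natCast_nonneg q
    have hq0 : (0 : ℝ) < q := by exact_mod_cast hqp.pos
    rw [sum_comm]
    have h2 : ∀ j ∈ Icc 1 x, ∑ p ∈ (Icc 3 x).filter Nat.Prime,
        (if q ^ j ∣ p ^ 2 - 2 ∧ (q ^ j) ^ 4 ≤ x then log (q : ℝ) else 0) ≤
        4 * C * x / log x * log q * (1 / (q : ℝ) ^ j) := by
      intro j hj
      by_cases h3 : (q ^ j) ^ 4 ≤ x
      · have h4 := count_pow hC hDV hx hqp (mem_Icc.1 hj).1 h3
        have h5 : ∑ p ∈ (Icc 3 x).filter Nat.Prime,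
            (if q ^ j ∣ p ^ 2 - 2 ∧ (q ^ j) ^ 4 ≤ x then log (q : ℝ) else 0) =
            (((Icc 3 x).filter (fun p => p.Prime ∧ q ^ j ∣ p ^ 2 - 2)).card : ℝ) * log q := by
          rw [← sum_filter, sum_const, nsmul_eq_mul, filter_filter]
          congr 3
          ext p
          simp only [mem_filter]
          constructor
          · rintro ⟨a, b, c, d⟩
            exact ⟨a, b, c⟩
          · rintro ⟨a, b, c⟩
            exact ⟨a, b, c, h3⟩
        rw [h5]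
        calc _ ≤ 4 * C * x / ((q : ℝ) ^ j * log x) * log q := mul_le_mul_of_nonneg_right h4 hlq
          _ = _ := by
            field_simp
      · have h5 : ∑ p ∈ (Icc 3 x).filter Nat.Prime,
            (if q ^ j ∣ p ^ 2 - 2 ∧ (q ^ j) ^ 4 ≤ x then log (q : ℝ) else 0) = 0 :=
          sum_eq_zero fun p _ => if_neg fun h => h3 h.2
        rw [h5]
        positivity
    refine (sum_le_sum h2).trans ?_
    rw [← mul_sum]
    have h6 := geo_sum hqp x
    have h7 : 0 ≤ 4 * C * x / log x * log q := by positivity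
    calc _ ≤ 4 * C * x / log x * log q * (2 / q) := mul_le_mul_of_nonneg_left h6 h7
      _ = _ := by ring
  refine (sum_le_sum h1).trans ?_
  rw [← mul_sum]
  exact mul_le_mul_of_nonneg_left (sum_log_div y) (by positivity)

open Classical in
/-- the exceptional primes -/
theorem exc_bound {C : ℝ} (hC : 0 < C) (hDV : ∀ x d : ℕ, 2 ≤ x → 1 ≤ d → d ^ 4 ≤ x →
    (((Icc 3 x).filter (fun p => p.Prime ∧ d ∣ p ^ 2 - 2)).card : ℝ) ≤
      C * x * 2 ^ d.primeFactors.card / (d.totient * log x)) {x y : ℕ} (hx : 2 ≤ x)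
    (hy : y ^ 16 ≤ x) :
    (((Icc 3 x).filter (fun p => p.Prime ∧ ∃ q : ℕ, q.Prime ∧ q ≤ y ∧
      x < (q ^ (p ^ 2 - 2).factorization q) ^ 4)).card : ℝ) ≤
    4 * C * (x : ℝ) ^ (15 / 16 : ℝ) / log x := by
  have hlx : 0 < log x := log_pos (by exact_mod_cast (by omega : 1 < x))
  have hx0 : (0 : ℝ) < x := by exact_mod_cast (by omega : 0 < x)
  have hex : ∀ q : ℕ, ∃ j : ℕ, q.Prime → x < (q ^ j) ^ 8 := by
    intro q
    refine ⟨x, fun hq => ?_⟩
    have h1 : x < q ^ x := Nat.lt_pow_self hq.one_lt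
    exact lt_of_lt_of_le h1 (Nat.le_self_pow (by norm_num) _)
  have hj : ∀ q : ℕ, q.Prime → q ≤ y → ∃ j : ℕ, 1 ≤ j ∧ x < (q ^ j) ^ 8 ∧ (q ^ j) ^ 4 ≤ x ∧
      ∀ i : ℕ, x < (q ^ i) ^ 8 → j ≤ i := by
    intro q hq hqy
    have h0 : ∃ j : ℕ, x < (q ^ j) ^ 8 := ⟨(hex q).choose, (hex q).choose_spec hq⟩
    refine ⟨Nat.find h0, ?_, Nat.find_spec h0, ?_, fun i hi => Nat.find_min' h0 hi⟩
    · by_contra h1
      have h2 : Nat.find h0 = 0 := by omega
      have h3 := Nat.find_spec h0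
      rw [h2, pow_zero, one_pow] at h3
      omega
    · have h1 : 1 ≤ Nat.find h0 := by
        by_contra h1
        have h2 : Nat.find h0 = 0 := by omega
        have h3 := Nat.find_spec h0
        rw [h2, pow_zero, one_pow] at h3
        omega
      obtain ⟨i, hi⟩ : ∃ i, Nat.find h0 = i + 1 := ⟨Nat.find h0 - 1, by omega⟩
      have h2 : ¬ x < (q ^ i) ^ 8 := Nat.find_min h0 (by omega)
      rw [hi]
      have h3 : (q ^ (i + 1)) ^ 8 = (q ^ i) ^ 8 * q ^ 8 := by ring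
      have h4 : q ^ 8 ≤ x := by
        have h5 : q ^ 8 ≤ y ^ 8 := Nat.pow_le_pow_left hqy 8
        have h6 : y ^ 8 ≤ y ^ 16 := by
          have h7 : 0 < y := lt_of_lt_of_le hq.pos hqy
          exact Nat.pow_le_pow_right h7 (by norm_num)
        omega
      have h5 : (q ^ (i + 1)) ^ 8 ≤ x * x := by
        rw [h3]
        exact Nat.mul_le_mul (by omega) h4
      by_contra h6
      have h7 : x * x < ((q ^ (i + 1)) ^ 4) * ((q ^ (i + 1)) ^ 4) :=
        Nat.mul_lt_mul_of_lt_of_le (by omega) (by omega) (by omega)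
      have h8 : ((q ^ (i + 1)) ^ 4) * ((q ^ (i + 1)) ^ 4) = (q ^ (i + 1)) ^ 8 := by ring
      omega
  choose! j hj1 hj2 hj3 hj4 using hj
  have hsub : ((Icc 3 x).filter (fun p => p.Prime ∧ ∃ q : ℕ, q.Prime ∧ q ≤ y ∧
      x < (q ^ (p ^ 2 - 2).factorization q) ^ 4)) ⊆
      ((Icc 1 y).filter Nat.Prime).biUnion
        (fun q => (Icc 3 x).filter (fun p => p.Prime ∧ q ^ j q ∣ p ^ 2 - 2)) := by
    intro p hp
    rw [mem_filter] at hp
    obtain ⟨hp1, hp2, q, hq, hqy, hqx⟩ := hp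
    rw [mem_biUnion]
    refine ⟨q, mem_filter.2 ⟨mem_Icc.2 ⟨hq.one_le, hqy⟩, hq⟩, mem_filter.2 ⟨hp1, hp2, ?_⟩⟩
    have h3 : 3 ≤ p := (mem_Icc.1 hp1).1
    have hN : p ^ 2 - 2 ≠ 0 := by
      have : 9 ≤ p ^ 2 := by nlinarith
      omega
    refine (hq.pow_dvd_iff_le_factorization hN).2 (hj4 q hq hqy _ ?_)
    refine lt_of_lt_of_le hqx ?_
    exact Nat.pow_le_pow_right (pow_pos hq.pos _) (by norm_num)
  have h1 : (((Icc 3 x).filter (fun p => p.Prime ∧ ∃ q : ℕ, q.Prime ∧ q ≤ y ∧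
      x < (q ^ (p ^ 2 - 2).factorization q) ^ 4)).card : ℝ) ≤
      ∑ q ∈ (Icc 1 y).filter Nat.Prime,
        (((Icc 3 x).filter (fun p => p.Prime ∧ q ^ j q ∣ p ^ 2 - 2)).card : ℝ) := by
    have h2 := (card_le_card hsub).trans card_biUnion_le
    exact_mod_cast h2
  refine h1.trans ?_
  have h2 : ∀ q ∈ (Icc 1 y).filter Nat.Prime,
      (((Icc 3 x).filter (fun p => p.Prime ∧ q ^ j q ∣ p ^ 2 - 2)).card : ℝ) ≤
      4 * C * (x : ℝ) ^ (7 / 8 : ℝ) / log x := by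
    intro q hq
    rw [mem_filter, mem_Icc] at hq
    obtain ⟨⟨-, hqy⟩, hqp⟩ := hq
    refine (count_pow hC hDV hx hqp (hj1 q hqp hqy) (hj3 q hqp hqy)).trans ?_
    have h3 : (x : ℝ) ^ (1 / 8 : ℝ) ≤ (q : ℝ) ^ j q := by
      have h4 : (x : ℝ) ≤ ((q : ℝ) ^ j q) ^ 8 := by exact_mod_cast (hj2 q hqp hqy).le
      have h5 : (0 : ℝ) ≤ (q : ℝ) ^ j q := by positivity
      calc (x : ℝ) ^ (1 / 8 : ℝ) ≤ (((q : ℝ) ^ j q) ^ 8) ^ (1 / 8 : ℝ) :=
            rpow_le_rpow hx0.le h4 (by norm_num)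
        _ = (q : ℝ) ^ j q := by
            rw [← rpow_natCast ((q : ℝ) ^ j q) 8, ← rpow_mul h5]
            norm_num
    have h6 : (0 : ℝ) < (x : ℝ) ^ (1 / 8 : ℝ) := rpow_pos_of_pos hx0 _
    have h7 : (x : ℝ) ^ (7 / 8 : ℝ) * (x : ℝ) ^ (1 / 8 : ℝ) = x := by
      rw [← rpow_add hx0]
      norm_num
    have h8 : (0 : ℝ) < (x : ℝ) ^ (7 / 8 : ℝ) := rpow_pos_of_pos hx0 _
    have hqj : (0 : ℝ) < (q : ℝ) ^ j q := lt_of_lt_of_le h6 h3
    rw [div_le_div_iff₀ (by positivity) hlx]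
    have h9 : 4 * C * (x : ℝ) * log x =
        4 * C * (x : ℝ) ^ (7 / 8 : ℝ) * log x * (x : ℝ) ^ (1 / 8 : ℝ) := by
      nth_rewrite 1 [← h7]
      ring
    have h10 : 4 * C * (x : ℝ) ^ (7 / 8 : ℝ) * ((q : ℝ) ^ j q * log x) =
        4 * C * (x : ℝ) ^ (7 / 8 : ℝ) * log x * (q : ℝ) ^ j q := by ring
    rw [h9, h10]
    exact mul_le_mul_of_nonneg_left h3 (by positivity)
  refine (sum_le_sum h2).trans ?_
  rw [sum_const, nsmul_eq_mul]
  have h3 : ((((Icc 1 y).filter Nat.Prime).card : ℕ) : ℝ) ≤ (x : ℝ) ^ (1 / 16 : ℝ) := by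
    have h4 : (((Icc 1 y).filter Nat.Prime).card : ℝ) ≤ y := by
      have h5 := card_filter_le (Icc 1 y) Nat.Prime
      rw [Nat.card_Icc, Nat.add_sub_cancel] at h5
      exact_mod_cast h5
    refine h4.trans ?_
    have h5 : ((y : ℝ)) ^ 16 ≤ x := by exact_mod_cast hy
    calc (y : ℝ) = ((y : ℝ) ^ 16) ^ (1 / 16 : ℝ) := by
          rw [← rpow_natCast (y : ℝ) 16, ← rpow_mul (Nat.cast_nonneg y)]
          norm_num
      _ ≤ (x : ℝ) ^ (1 / 16 : ℝ) := rpow_le_rpow (by positivity) h5 (by norm_num)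
  have h4 : (0 : ℝ) ≤ 4 * C * (x : ℝ) ^ (7 / 8 : ℝ) / log x := by positivity
  refine (mul_le_mul_of_nonneg_right h3 h4).trans (le_of_eq ?_)
  have h5 : (x : ℝ) ^ (15 / 16 : ℝ) = (x : ℝ) ^ (1 / 16 : ℝ) * (x : ℝ) ^ (7 / 8 : ℝ) := by
    rw [← rpow_add hx0]
    norm_num
  rw [h5]
  ring

theorem pf_SA (hDV : T_DV) : T_SA := by
  classical
  obtain ⟨C, hC, hDV⟩ := hDV
  intro η ε hη hε
  obtain ⟨δ, hδ⟩ : ∃ δ : ℝ, δ = min (1 / 16) (ε * η / (32 * C)) := ⟨_, rfl⟩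
  have hδ0 : 0 < δ := by
    rw [hδ]
    exact lt_min (by norm_num) (by positivity)
  have hδ1 : δ ≤ 1 / 16 := by rw [hδ]; exact min_le_left _ _
  have hδ2 : δ ≤ ε * η / (32 * C) := by rw [hδ]; exact min_le_right _ _
  have ev1 : ∀ᶠ x : ℕ in Filter.atTop, 288 * C / (ε * η) ≤ log (x : ℝ) :=
    (tendsto_log_atTop.comp tendsto_natCast_atTop_atTop).eventually_ge_atTop _
  have ev2 : ∀ᶠ x : ℕ in Filter.atTop, 8 * C / ε ≤ (x : ℝ) ^ (1 / 16 : ℝ) :=
    ((tendsto_rpow_atTop (by norm_num)).comp tendsto_natCast_atTop_atTop).eventually_ge_atTop _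
  obtain ⟨x₀, hx₀⟩ := Filter.eventually_atTop.1 ((ev1.and ev2).and (Filter.eventually_ge_atTop 2))
  refine ⟨δ, x₀, hδ0, fun x y hx hy => ?_⟩
  obtain ⟨⟨h1, h2⟩, hx2⟩ := hx₀ x hx
  have hx0 : (0 : ℝ) < x := by exact_mod_cast (by omega : 0 < x)
  have hx1 : (1 : ℝ) ≤ x := by exact_mod_cast (by omega : 1 ≤ x)
  have hlx : 0 < log (x : ℝ) := log_pos (by exact_mod_cast (by omega : 1 < x))
  have hy16 : y ^ 16 ≤ x := by
    have h3 : (y : ℝ) ≤ (x : ℝ) ^ (1 / 16 : ℝ) := hy.trans (rpow_le_rpow_of_exponent_le hx1 hδ1)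
    have h4 : (y : ℝ) ^ 16 ≤ ((x : ℝ) ^ (1 / 16 : ℝ)) ^ 16 :=
      pow_le_pow_left₀ (Nat.cast_nonneg y) h3 16
    have h5 : ((x : ℝ) ^ (1 / 16 : ℝ)) ^ 16 = x := by
      rw [← rpow_natCast ((x : ℝ) ^ (1 / 16 : ℝ)) 16, ← rpow_mul hx0.le]
      norm_num
    rw [h5] at h4
    exact_mod_cast h4
  have hly : log (y : ℝ) ≤ δ * log x := by
    rcases Nat.eq_zero_or_pos y with hy0 | hy0
    · rw [hy0, Nat.cast_zero, log_zero]
      positivity
    · have h3 := log_le_log (by exact_mod_cast hy0 : (0 : ℝ) < y) hy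
      rwa [log_rpow hx0] at h3
  obtain ⟨E, hE⟩ : ∃ E : Finset ℕ, E = ((Icc 3 x).filter (fun p : ℕ => p.Prime ∧ ∃ q : ℕ, q.Prime ∧
      q ≤ y ∧ x < (q ^ (Nat.factorization (p ^ 2 - 2) q)) ^ 4)) := ⟨_, rfl⟩
  obtain ⟨F, hF⟩ : ∃ F : Finset ℕ, F = ((Icc 3 x).filter Nat.Prime).filter
      (fun p : ℕ => (∀ q : ℕ, q.Prime → q ≤ y → (q ^ (Nat.factorization (p ^ 2 - 2) q)) ^ 4 ≤ x) ∧
        (x : ℝ) ^ η < (sm y (p ^ 2 - 2) : ℝ)) := ⟨_, rfl⟩
  have hE1 : (E.card : ℝ) ≤ 4 * C * (x : ℝ) ^ (15 / 16 : ℝ) / log x := by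
    rw [hE]
    exact exc_bound hC hDV hx2 hy16
  have hF1 : (F.card : ℝ) * (η * log x) ≤ 8 * C * x / log x * (log y + 9) := by
    refine le_trans ?_ (first_moment hC hDV hx2 y)
    have h3 : (F.card : ℝ) * (η * log x) = ∑ p ∈ F, η * log x := by
      rw [sum_const, nsmul_eq_mul]
    rw [h3]
    have h4 : ∑ p ∈ F, η * log x ≤ ∑ p ∈ F, ∑ q ∈ (Icc 1 y).filter Nat.Prime, ∑ j ∈ Icc 1 x,
        (if q ^ j ∣ p ^ 2 - 2 ∧ (q ^ j) ^ 4 ≤ x then log (q : ℝ) else 0) := by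
      refine sum_le_sum fun p hp => ?_
      rw [hF, mem_filter, mem_filter, mem_Icc] at hp
      obtain ⟨⟨⟨hp3, -⟩, -⟩, hp4, hp5⟩ := hp
      have hN : p ^ 2 - 2 ≠ 0 := by
        have : 9 ≤ p ^ 2 := by nlinarith
        omega
      refine le_trans ?_ (log_sm_le hN hp4)
      rw [← log_rpow hx0]
      exact log_le_log (rpow_pos_of_pos hx0 _) hp5.le
    refine h4.trans ?_
    rw [hF]
    refine sum_le_sum_of_subset_of_nonneg (filter_subset _ _) fun p _ _ => ?_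
    refine sum_nonneg fun q _ => sum_nonneg fun j _ => ?_
    split_ifs
    · exact log_natCast_nonneg q
    · exact le_rfl
  have hsub : (Icc 3 x).filter (fun p => p.Prime ∧ (x : ℝ) ^ η < (sm y (p ^ 2 - 2) : ℝ)) ⊆
      E ∪ F := by
    intro p hp
    rw [mem_filter] at hp
    rw [mem_union, hE, hF, mem_filter, mem_filter, mem_filter]
    by_cases h3 : ∀ q : ℕ, q.Prime → q ≤ y → (q ^ (p ^ 2 - 2).factorization q) ^ 4 ≤ x
    · exact Or.inr ⟨⟨hp.1, hp.2.1⟩, h3, hp.2.2⟩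
    · push Not at h3
      obtain ⟨q, hq1, hq2, hq3⟩ := h3
      exact Or.inl ⟨hp.1, hp.2.1, q, hq1, hq2, hq3⟩
  have h3 : (((Icc 3 x).filter (fun p => p.Prime ∧
      (x : ℝ) ^ η < (sm y (p ^ 2 - 2) : ℝ))).card : ℝ) ≤ E.card + F.card := by
    have h4 := (card_le_card hsub).trans (card_union_le _ _)
    exact_mod_cast h4
  have hE2 : (E.card : ℝ) ≤ ε / 2 * x / log x := by
    refine hE1.trans ?_
    refine div_le_div_of_nonneg_right ?_ hlx.le
    have h4 : (x : ℝ) = (x : ℝ) ^ (15 / 16 : ℝ) * (x : ℝ) ^ (1 / 16 : ℝ) := by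
      rw [← rpow_add hx0]
      norm_num
    have h5 : 8 * C ≤ ε * (x : ℝ) ^ (1 / 16 : ℝ) := by
      rw [div_le_iff₀ hε] at h2
      linarith
    have h6 : (0 : ℝ) < (x : ℝ) ^ (15 / 16 : ℝ) := rpow_pos_of_pos hx0 _
    have h7 : ε / 2 * (x : ℝ) = (x : ℝ) ^ (15 / 16 : ℝ) * (ε * (x : ℝ) ^ (1 / 16 : ℝ)) / 2 := by
      nth_rewrite 1 [h4]
      ring
    rw [h7]
    have h8 := mul_le_mul_of_nonneg_left h5 h6.le
    linarith
  have hF2 : (F.card : ℝ) ≤ ε / 2 * x / log x := by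
    have h4 : 8 * C * x / log x * (log y + 9) ≤ ε / 2 * x / log x * (η * log x) := by
      have h5 : 8 * C * (log y + 9) ≤ ε / 2 * (η * log x) := by
        have h6 : 8 * C * (δ * log x) ≤ ε * η / 4 * log x := by
          have h7 : δ * (32 * C) ≤ ε * η := by
            rwa [le_div_iff₀ (by positivity)] at hδ2
          have h8 := mul_le_mul_of_nonneg_right h7 hlx.le
          linarith
        have h9 : 288 * C ≤ log x * (ε * η) := by
          rwa [div_le_iff₀ (by positivity)] at h1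
        have h10 : 8 * C * log y ≤ 8 * C * (δ * log x) :=
          mul_le_mul_of_nonneg_left hly (by positivity)
        linarith
      have h11 : (0 : ℝ) ≤ x / log x := by positivity
      have h12 := mul_le_mul_of_nonneg_left h5 h11
      calc 8 * C * x / log x * (log y + 9) = x / log x * (8 * C * (log y + 9)) := by ring
        _ ≤ x / log x * (ε / 2 * (η * log x)) := h12
        _ = _ := by ring
    have h5 := hF1.trans h4
    exact le_of_mul_le_mul_right h5 (by positivity)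
  refine h3.trans ?_
  have h4 : ε * x / log x = ε / 2 * x / log x + ε / 2 * x / log x := by ring
  rw [h4]
  exact add_le_add hE2 hF2

end Pool.Agent.H5.SC
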