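import Pool.Agent.H5.SC.Targets
import Pool.Agent.H30.PF.GM

set_option autoImplicit false

open Finset Real

namespace Pool.Agent.H5.SC

open Pool.Agent.H30.PF

theorem sm_mono {y z : ℕ} (h : y ≤ z) (N : ℕ) : sm y N ≤ sm z N := by
  unfold sm
  refine Finset.prod_le_prod_of_subset_of_one_le' ?_ ?_
  · intro q hq
    rw [mem_filter] at hq ⊢
    exact ⟨hq.1, hq.2.trans h⟩
  · intro q hq _
    have := (Nat.prime_of_mem_primeFactors (mem_filter.1 hq).1).pos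
    exact Nat.one_le_iff_ne_zero.2 (pow_ne_zero _ (by omega))

/-- the union over the greedy divisors -/
theorem greedy_count {C : ℝ} (hC : 0 < C) (hDV : ∀ x d : ℕ, 2 ≤ x → 1 ≤ d → d ^ 4 ≤ x →
    (((Icc 3 x).filter (fun p => p.Prime ∧ d ∣ p ^ 2 - 2)).card : ℝ) ≤
      C * x * 2 ^ d.primeFactors.card / (d.totient * log x)) (hGR : T_GR)
    {x y D : ℕ} (hx : 2 ≤ x) (hD : 1 ≤ D) (hDx : D ^ 4 ≤ x) :
    (((Icc 3 x).filter (fun p => p.Prime ∧ D < sm y (p ^ 2 - 2))).card : ℝ) ≤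
    C * x / log x * ∑ d ∈ (Icc 1 D).filter (fun d => Odd d ∧ (∀ q ∈ d.primeFactors, q ≤ y) ∧
      D < d * y), (2 : ℝ) ^ d.primeFactors.card / (d.totient : ℝ) := by
  classical
  have hsub : (Icc 3 x).filter (fun p => p.Prime ∧ D < sm y (p ^ 2 - 2)) ⊆
      ((Icc 1 D).filter (fun d => Odd d ∧ (∀ q ∈ d.primeFactors, q ≤ y) ∧
        D < d * y)).biUnion (fun d => (Icc 3 x).filter (fun p => p.Prime ∧ d ∣ p ^ 2 - 2)) := by
    intro p hp
    rw [mem_filter] at hp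
    obtain ⟨hp1, hp2, hp3⟩ := hp
    have h3 : 3 ≤ p := (mem_Icc.1 hp1).1
    have hN : p ^ 2 - 2 ≠ 0 := by
      have : 9 ≤ p ^ 2 := by nlinarith
      omega
    obtain ⟨d, hd1, hd2, hd3, hd4⟩ := hGR y D (p ^ 2 - 2) hN hD hp3
    rw [mem_biUnion]
    refine ⟨d, ?_, mem_filter.2 ⟨hp1, hp2, hd1⟩⟩
    rw [mem_filter, mem_Icc]
    refine ⟨⟨?_, hd3⟩, odd_of_dvd hp2 h3 hd1, hd2, hd4⟩
    rw [Nat.one_le_iff_ne_zero]
    rintro rfl
    exact hN (Nat.eq_zero_of_zero_dvd hd1)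
  have h1 : (((Icc 3 x).filter (fun p => p.Prime ∧ D < sm y (p ^ 2 - 2))).card : ℝ) ≤
      ∑ d ∈ (Icc 1 D).filter (fun d => Odd d ∧ (∀ q ∈ d.primeFactors, q ≤ y) ∧ D < d * y),
        (((Icc 3 x).filter (fun p => p.Prime ∧ d ∣ p ^ 2 - 2)).card : ℝ) := by
    have h2 := (card_le_card hsub).trans card_biUnion_le
    exact_mod_cast h2
  refine h1.trans ?_
  rw [mul_sum]
  refine sum_le_sum fun d hd => ?_
  rw [mem_filter, mem_Icc] at hd
  obtain ⟨⟨hd1, hd2⟩, -⟩ := hd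
  have h3 : d ^ 4 ≤ x := le_trans (Nat.pow_le_pow_left hd2 4) hDx
  refine (hDV x d hx hd1 h3).trans (le_of_eq ?_)
  have h4 : 0 < d.totient := Nat.totient_pos.2 hd1
  have h5 : (0 : ℝ) < (d.totient : ℝ) := by exact_mod_cast h4
  have hlx : 0 < log (x : ℝ) := log_pos (by exact_mod_cast (by omega : 1 < x))
  field_simp

/-- the exponent -/
theorem expo {K η B c L L2 L3 lD lY : ℝ} (hη : 0 < η) (hB : 0 < B)
    (hc : c = η / (4 * (B + 4))) (hL : 0 < L) (hL2 : 0 < L2) (hL3 : 1 ≤ L3)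
    (hL2e : L2 = exp L3) (h1 : K * L3 ≤ exp (L3 / 2)) (h2 : 2 * L3 ≤ L2) (h3 : 4 * K ≤ L2)
    (hlY : 0 < lY) (hlY2 : lY ≤ c * L3 * L / L2) (hlD : η / 2 * L ≤ lD) (hLL : log lY ≤ L2) :
    -(L3 / 2 * (lD / lY - 1)) + 2 * log lY + K * (L3 / 2) * exp (L3 / 2) + K ≤ -(B + 1) * L2 := by
  have hc0 : 0 < c := by rw [hc]; positivity
  have e1 : (B + 4) * L2 ≤ L3 / 2 * (lD / lY) := by
    have e2 : η / 2 * L / (c * L3 * L / L2) ≤ lD / lY :=
      div_le_div₀ (le_trans (by positivity) hlD) hlD hlY hlY2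
    have e3 : η / 2 * L / (c * L3 * L / L2) = η * L2 / (2 * c * L3) := by
      field_simp
    rw [e3] at e2
    have e4 : L3 / 2 * (η * L2 / (2 * c * L3)) = (B + 4) * L2 := by
      have h5 : η = 4 * (B + 4) * c := by
        rw [hc]
        field_simp
      rw [h5]
      field_simp
      ring
    rw [← e4]
    exact mul_le_mul_of_nonneg_left e2 (by linarith)
  have e5 : K * (L3 / 2) * exp (L3 / 2) ≤ L2 / 2 := by
    have e6 : exp (L3 / 2) * exp (L3 / 2) = L2 := by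
      rw [← exp_add, hL2e]
      congr 1
      ring
    have e7 := mul_le_mul_of_nonneg_right h1 (exp_pos (L3 / 2)).le
    rw [e6] at e7
    linarith
  have e8 : L3 / 2 * (lD / lY - 1) = L3 / 2 * (lD / lY) - L3 / 2 := by ring
  rw [e8]
  linarith

theorem pf_SB (hDV : T_DV) (hGR : T_GR) (hRS : T_RS) : T_SB := by
  classical
  obtain ⟨C, hC, hDV⟩ := hDV
  obtain ⟨K, hK, hRS⟩ := hRS
  intro η₀ B hη₀ hB
  obtain ⟨η, hη⟩ : ∃ η : ℝ, η = min (1 / 4) η₀ := ⟨_, rfl⟩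
  have hη0 : 0 < η := by rw [hη]; exact lt_min (by norm_num) hη₀
  have hη1 : η ≤ 1 / 4 := by rw [hη]; exact min_le_left _ _
  have hη2 : η ≤ η₀ := by rw [hη]; exact min_le_right _ _
  obtain ⟨c, hc⟩ : ∃ c : ℝ, c = η / (4 * (B + 4)) := ⟨_, rfl⟩
  have hc0 : 0 < c := by rw [hc]; positivity
  have hc1 : c ≤ 1 := by
    rw [hc, div_le_one (by positivity)]
    linarith
  have tL : Filter.Tendsto (fun x : ℕ => log (x : ℝ)) Filter.atTop Filter.atTop :=
    tendsto_log_atTop.comp tendsto_natCast_atTop_atTop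
  have tL2 : Filter.Tendsto (fun x : ℕ => log (log (x : ℝ))) Filter.atTop Filter.atTop :=
    tendsto_log_atTop.comp tL
  have tL3 : Filter.Tendsto (fun x : ℕ => log (log (log (x : ℝ)))) Filter.atTop Filter.atTop :=
    tendsto_log_atTop.comp tL2
  have ev1 : ∀ᶠ x : ℕ in Filter.atTop, max C (2 / η + 1) ≤ log (x : ℝ) :=
    tL.eventually_ge_atTop _
  have ev2 : ∀ᶠ x : ℕ in Filter.atTop, max 1 (4 * K) ≤ log (log (x : ℝ)) :=
    tL2.eventually_ge_atTop _
  have ev3 : ∀ᶠ x : ℕ in Filter.atTop, 1 ≤ log (log (log (x : ℝ))) :=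
    tL3.eventually_ge_atTop _
  have ev4 : ∀ᶠ t : ℝ in Filter.atTop, K * t ≤ exp (t / 2) := by
    have h1 := tendsto_exp_div_pow_atTop 1
    have h2 := (h1.comp (Filter.tendsto_id.atTop_div_const
      (by norm_num : (0 : ℝ) < 2))).eventually_ge_atTop (2 * K)
    filter_upwards [h2, Filter.eventually_gt_atTop 0] with t ht ht0
    simp only [Function.comp, id, pow_one] at ht
    rw [le_div_iff₀ (by positivity)] at ht
    linarith
  have ev5 : ∀ᶠ x : ℕ in Filter.atTop, K * log (log (log (x : ℝ))) ≤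
      exp (log (log (log (x : ℝ))) / 2) := tL3.eventually ev4
  have ev6 : ∀ᶠ t : ℝ in Filter.atTop, log t ≤ c / 8 * t := by
    have h1 := isLittleO_log_id_atTop.bound (by positivity : 0 < c / 8)
    filter_upwards [h1, Filter.eventually_ge_atTop 1] with t ht ht1
    rw [norm_eq_abs, norm_eq_abs, abs_of_nonneg (log_nonneg ht1), id, abs_of_nonneg (by linarith)]
      at ht
    exact ht
  have ev7 : ∀ᶠ x : ℕ in Filter.atTop, log (log (x : ℝ)) ≤ c / 8 * log (x : ℝ) :=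
    tL.eventually ev6
  have ev8 : ∀ᶠ x : ℕ in Filter.atTop, log (log (log (x : ℝ))) ≤ c / 8 * log (log (x : ℝ)) :=
    tL2.eventually ev6
  obtain ⟨x₀, hx₀⟩ := Filter.eventually_atTop.1 (ev1.and (ev2.and (ev3.and (ev5.and
    (ev7.and (ev8.and (Filter.eventually_ge_atTop 3)))))))
  refine ⟨c, x₀, hc0, fun x y hx hy => ?_⟩
  obtain ⟨h1, h2, h3, h5, h7, h8, hx3⟩ := hx₀ x hx
  have hx0 : (0 : ℝ) < x := by exact_mod_cast (by omega : 0 < x)
  have hx1 : (1 : ℝ) ≤ x := by exact_mod_cast (by omega : 1 ≤ x)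
  obtain ⟨L, hL⟩ : ∃ L : ℝ, L = log (x : ℝ) := ⟨_, rfl⟩
  rw [← hL] at h1 h2 h3 h5 h7 h8 hy ⊢
  obtain ⟨L2, hL2⟩ : ∃ L2 : ℝ, L2 = log L := ⟨_, rfl⟩
  rw [← hL2] at h2 h3 h5 h7 h8 hy
  obtain ⟨L3, hL3⟩ : ∃ L3 : ℝ, L3 = log L2 := ⟨_, rfl⟩
  rw [← hL3] at h3 h5 h8 hy
  have hLC : C ≤ L := (le_max_left _ _).trans h1
  have hLη : 2 / η + 1 ≤ L := (le_max_right _ _).trans h1
  have hL21 : 1 ≤ L2 := (le_max_left _ _).trans h2
  have hL2K : 4 * K ≤ L2 := (le_max_right _ _).trans h2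
  have h2η : 8 ≤ 2 / η := by
    rw [le_div_iff₀ hη0]
    linarith
  have hL0 : 0 < L := by linarith
  have hL2e : L2 = exp L3 := by rw [hL3, exp_log (by linarith)]
  have hLe : L = exp L2 := by rw [hL2, exp_log hL0]
  have hxe : (x : ℝ) = exp L := by rw [hL, exp_log hx0]
  have h2L : 2 * L3 ≤ L2 := by nlinarith
  -- the smoothness parameter
  obtain ⟨z, hz⟩ : ∃ z : ℝ, z = (x : ℝ) ^ (c * L3 / L2) := ⟨_, rfl⟩
  rw [← hz] at hy
  have hz0 : 0 < z := by rw [hz]; exact rpow_pos_of_pos hx0 _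
  have hlz : log z = c * L3 * L / L2 := by
    rw [hz, log_rpow hx0, ← hL]
    ring
  have hlz8 : 8 * L3 ≤ log z := by
    rw [hlz, le_div_iff₀ (by linarith)]
    nlinarith
  have hz16 : 32 ≤ z := by
    have h9 : exp 8 ≤ z := by
      rw [← exp_log hz0]
      exact exp_le_exp.2 (by linarith)
    refine le_trans ?_ h9
    have h10 := add_one_le_exp (8 / 2 : ℝ)
    have h11 : exp (8 : ℝ) = exp (8 / 2) * exp (8 / 2) := by
      rw [← exp_add]
      norm_num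
    rw [h11]
    have h12 : (1 : ℝ) ≤ exp (8 / 4) := one_le_exp (by norm_num)
    have h13 : exp (8 / 2 : ℝ) = exp (8 / 4) * exp (8 / 4) := by
      rw [← exp_add]
      norm_num
    have h14 := add_one_le_exp (8 / 4 : ℝ)
    have h15 : (9 : ℝ) ≤ exp (8 / 2) := by
      rw [h13]
      nlinarith
    nlinarith
  obtain ⟨Y, hY⟩ : ∃ Y : ℕ, Y = ⌊z⌋₊ := ⟨_, rfl⟩
  have hyY : y ≤ Y := by rw [hY]; exact Nat.le_floor hy
  have hYz : (Y : ℝ) ≤ z := by rw [hY]; exact Nat.floor_le hz0.le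
  have hzY : z < (Y : ℝ) + 1 := by rw [hY]; exact Nat.lt_floor_add_one z
  have hY16 : 16 ≤ Y := by
    rw [hY]
    exact Nat.le_floor (by push_cast; linarith)
  have hY0 : (16 : ℝ) ≤ Y := by exact_mod_cast hY16
  have hlY : 0 < log (Y : ℝ) := log_pos (by linarith)
  have hlY2 : log (Y : ℝ) ≤ c * L3 * L / L2 := by
    rw [← hlz]
    exact log_le_log (by linarith) hYz
  have hlY3 : 2 * L3 ≤ log (Y : ℝ) := by
    have h9 : z / 2 ≤ Y := by linarith
    have h10 := log_le_log (by positivity) h9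
    rw [log_div hz0.ne' (by norm_num)] at h10
    have h11 : log (2 : ℝ) ≤ 1 := by
      have := log_two_lt_d9
      linarith
    linarith
  have hYx : log (Y : ℝ) ≤ L := by
    refine hlY2.trans ?_
    rw [div_le_iff₀ (by linarith)]
    have h9 : c * L3 ≤ L2 := by nlinarith
    nlinarith
  have hLL : log (log (Y : ℝ)) ≤ L2 := by
    rw [hL2]
    exact log_le_log hlY hYx
  -- the size of the divisors
  obtain ⟨w, hw⟩ : ∃ w : ℝ, w = (x : ℝ) ^ η := ⟨_, rfl⟩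
  have hw0 : 0 < w := by rw [hw]; exact rpow_pos_of_pos hx0 _
  have hlw : log w = η * L := by rw [hw, log_rpow hx0, ← hL]
  have hηL : 2 ≤ η * L := by
    have h9 : η * (2 / η) = 2 := by field_simp
    have h10 := mul_le_mul_of_nonneg_left hLη hη0.le
    have h11 : η * (2 / η + 1) = η * (2 / η) + η := by ring
    rw [h11, h9] at h10
    linarith
  have hw2 : 2 ≤ w := by
    have h9 := add_one_le_exp (η * L)
    rw [← hlw, exp_log hw0, hlw] at h9
    linarith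
  obtain ⟨D, hD⟩ : ∃ D : ℕ, D = ⌊w⌋₊ := ⟨_, rfl⟩
  have hDw : (D : ℝ) ≤ w := by rw [hD]; exact Nat.floor_le hw0.le
  have hwD : w < (D : ℝ) + 1 := by rw [hD]; exact Nat.lt_floor_add_one w
  have hD1 : 1 ≤ D := by
    rw [hD]
    exact Nat.le_floor (by push_cast; linarith)
  have hD0 : (1 : ℝ) ≤ D := by exact_mod_cast hD1
  have hDx : D ^ 4 ≤ x := by
    have h9 : (D : ℝ) ^ 4 ≤ w ^ 4 := pow_le_pow_left₀ (Nat.cast_nonneg D) hDw 4
    have h10 : w ^ 4 ≤ x := by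
      rw [hw, ← rpow_natCast ((x : ℝ) ^ η) 4, ← rpow_mul hx0.le]
      calc (x : ℝ) ^ (η * (4 : ℕ)) ≤ (x : ℝ) ^ (1 : ℝ) :=
            rpow_le_rpow_of_exponent_le hx1 (by push_cast; linarith)
        _ = x := rpow_one _
    exact_mod_cast h9.trans h10
  have hlD : η / 2 * L ≤ log (D : ℝ) := by
    have h9 : w / 2 ≤ D := by linarith
    have h10 := log_le_log (by positivity) h9
    rw [log_div hw0.ne' (by norm_num), hlw] at h10
    have h11 : log (2 : ℝ) ≤ 1 := by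
      have := log_two_lt_d9
      linarith
    linarith
  -- the count
  have hsub : (Icc 3 x).filter (fun p => p.Prime ∧ (x : ℝ) ^ η₀ < (sm y (p ^ 2 - 2) : ℝ)) ⊆
      (Icc 3 x).filter (fun p => p.Prime ∧ D < sm Y (p ^ 2 - 2)) := by
    intro p hp
    rw [mem_filter] at hp ⊢
    refine ⟨hp.1, hp.2.1, ?_⟩
    have h9 : (x : ℝ) ^ η ≤ (x : ℝ) ^ η₀ := rpow_le_rpow_of_exponent_le hx1 hη2
    have h10 : ((sm y (p ^ 2 - 2) : ℕ) : ℝ) ≤ (sm Y (p ^ 2 - 2) : ℕ) := by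
      exact_mod_cast sm_mono hyY _
    have h11 : (D : ℝ) < (sm Y (p ^ 2 - 2) : ℕ) := by
      rw [← hw] at h9
      linarith [hp.2.2]
    exact_mod_cast h11
  have h9 : (((Icc 3 x).filter (fun p => p.Prime ∧
      (x : ℝ) ^ η₀ < (sm y (p ^ 2 - 2) : ℝ))).card : ℝ) ≤
      (((Icc 3 x).filter (fun p => p.Prime ∧ D < sm Y (p ^ 2 - 2))).card : ℝ) := by
    exact_mod_cast card_le_card hsub
  refine h9.trans ((greedy_count hC hDV hGR (by omega) hD1 hDx).trans ?_)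
  have h10 := hRS Y D D (L3 / 2) hY16 (by linarith) (by linarith) hD1
  have h11 := expo hη0 hB hc hL0 (by linarith) h3 hL2e h5 h2L hL2K hlY hlY2 hlD hLL
  have h12 := h10.trans (exp_le_exp.2 h11)
  rw [← hL]
  have h13 : 0 ≤ C * x / L := by positivity
  refine (mul_le_mul_of_nonneg_left h12 h13).trans ?_
  have h14 : exp (-(B + 1) * L2) = (L ^ (B + 1))⁻¹ := by
    rw [← rpow_neg hL0.le, rpow_def_of_pos hL0, ← hL2]
    congr 1
    ring
  rw [h14]
  have h15 : L ^ (B + 1) = L ^ B * L := by rw [rpow_add hL0, rpow_one]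
  have h16 : 0 < L ^ B := rpow_pos_of_pos hL0 B
  rw [h15]
  have h17 : C * x / L * (L ^ B * L)⁻¹ = x / L ^ B * (C / L / L) := by
    field_simp
  rw [h17]
  have h18 : C / L / L ≤ 1 := by
    rw [div_div, div_le_one (by positivity)]
    nlinarith
  have h19 : 0 ≤ x / L ^ B := by positivity
  calc x / L ^ B * (C / L / L) ≤ x / L ^ B * 1 := mul_le_mul_of_nonneg_left h18 h19
    _ = x / L ^ B := mul_one _

end Pool.Agent.H5.SC
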