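import Pool.Agent.H30.PF.Targets

/-!
Targets for MP_04ff0f_nt, theorem SmallCofactors: smooth parts of `p ^ 2 - 2`.
-/

set_option autoImplicit false

open Finset Real

namespace Pool.Agent.H5.SC

open Pool.Agent.H30.PF

/-- the part of `N` composed of the primes `≤ y` -/
def sm (y N : ℕ) : ℕ := ∏ q ∈ N.primeFactors.filter (fun q => q ≤ y), q ^ N.factorization q

/-- the part of `N` composed of the primes `> y` -/
def rg (y N : ℕ) : ℕ := ∏ q ∈ N.primeFactors.filter (fun q => ¬ q ≤ y), q ^ N.factorization q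

/-- GR. Greedy divisor of a smooth part. -/
def T_GR : Prop := ∀ y D N : ℕ, N ≠ 0 → 1 ≤ D → D < sm y N →
  ∃ d : ℕ, d ∣ N ∧ (∀ q ∈ d.primeFactors, q ≤ y) ∧ d ≤ D ∧ D < d * y

/-- RS. Rankin sum: odd `y`-smooth `d` with `D < d * y`. -/
def T_RS : Prop := ∃ K : ℝ, 0 < K ∧ ∀ (y D X : ℕ) (κ : ℝ), 16 ≤ y → 0 < κ → κ ≤ log y / 4 →
  1 ≤ D → ∑ d ∈ (Icc 1 X).filter (fun d => Odd d ∧ (∀ q ∈ d.primeFactors, q ≤ y) ∧ D < d * y),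
    (2 : ℝ) ^ d.primeFactors.card / (d.totient : ℝ) ≤
    exp (-(κ * (log D / log y - 1)) + 2 * log (log y) + K * κ * exp κ + K)

/-- RO. The rough part. -/
def T_RO : Prop := ∀ y N : ℕ, N ≠ 0 → sm y N * rg y N = N ∧ (∀ q ∈ (rg y N).primeFactors, y < q) ∧
  (y + 1) ^ (rg y N).primeFactorsList.length ≤ N

/-- DV. Primes with `d ∣ p ^ 2 - 2`. -/
def T_DV : Prop := ∃ C : ℝ, 0 < C ∧ ∀ x d : ℕ, 2 ≤ x → 1 ≤ d → d ^ 4 ≤ x →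
  (((Icc 3 x).filter (fun p => p.Prime ∧ d ∣ p ^ 2 - 2)).card : ℝ) ≤
    C * x * 2 ^ d.primeFactors.card / (d.totient * log x)

/-- SA. Smooth parts, positive proportion. -/
def T_SA : Prop := ∀ η ε : ℝ, 0 < η → 0 < ε → ∃ (δ : ℝ) (x₀ : ℕ), 0 < δ ∧ ∀ x y : ℕ, x₀ ≤ x →
  (y : ℝ) ≤ (x : ℝ) ^ δ →
  (((Icc 3 x).filter (fun p => p.Prime ∧ (x : ℝ) ^ η < (sm y (p ^ 2 - 2) : ℝ))).card : ℝ) ≤
    ε * x / log x

/-- SB. Smooth parts, large deviations. -/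
def T_SB : Prop := ∀ η B : ℝ, 0 < η → 0 < B → ∃ (c : ℝ) (x₀ : ℕ), 0 < c ∧ ∀ x y : ℕ, x₀ ≤ x →
  (y : ℝ) ≤ (x : ℝ) ^ (c * log (log (log x)) / log (log x)) →
  (((Icc 3 x).filter (fun p => p.Prime ∧ (x : ℝ) ^ η < (sm y (p ^ 2 - 2) : ℝ))).card : ℝ) ≤
    x / (log x) ^ B

end Pool.Agent.H5.SC
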